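import Pool.Agent.Work.MP_46fa68_19.Mk7
import Pool.Agent.Work.MP_46fa68_19.m8_15_7.K

/-! # MP_46fa68_co, full marked kernel m8_15_7: restriction and target -/

set_option autoImplicit false

set_option maxRecDepth 200000

namespace Pool.JM.MK.m8_15_7

open Finset Pool.EG

theorem hcs : ∀ k ≤ 14 + 1, ∀ C ∈ Lv 16 k, cd C ∈ cs k := by
  refine cs_all (W := 31) (by norm_num) cs hcs0 ?_
  intro k hk
  interval_cases k
  · exact hcl0
  · exact hcl1
  · exact hcl2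
  · exact hcl3
  · exact hcl4
  · exact hcl5
  · exact hcl6
  · exact hcl7
  · exact hcl8
  · exact hcl9
  · exact hcl10
  · exact hcl11
  · exact hcl12
  · exact hcl13
  · exact hcl14

theorem hG : ∀ k < 6 + 2, allL (cs (k + 1)) (chG 31 tG) = true := by
  intro k hk
  interval_cases k
  · exact hG0
  · exact hG1
  · exact hG2
  · exact hG3
  · exact hG4
  · exact hG5
  · exact hG6
  · exact hG7

theorem hsB : ∀ k, 6 + 1 ≤ k → k < 14 →
    allL (cs k) (chB 720720 31 (k + 1) (tB (k + 1)) (tD (k + 1)) (tB k)) = true := by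
  intro k hk1 hk2
  interval_cases k
  · exact hB7
  · exact hB8
  · exact hB9
  · exact hB10
  · exact hB11
  · exact hB12
  · exact hB13

theorem hsD : ∀ k, 6 + 1 ≤ k → k < 14 →
    allL (cs (k + 1)) (chD 720720 31 (k + 1) (tB (k + 1)) (tD (k + 1)) (tD k)) = true := by
  intro k hk1 hk2
  interval_cases k
  · exact hD7
  · exact hD8
  · exact hD9
  · exact hD10
  · exact hD11
  · exact hD12
  · exact hD13

theorem hL : ∀ r, 1 ≤ r → r ≤ 16 → r ∣ 720720 := by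
  intro r h1 h2
  interval_cases r <;> decide

theorem hr0 : 4227071 = cd (Rw 16 (6 + 1)) := by
  decide +kernel

theorem hE : (∑ k ∈ Ico ((6 : ℕ) + 1) 14, (((101 : ℕ) : ℝ) * ((31 : ℕ) : ℝ) ^ 2 *
    (((k : ℝ) + 1) ^ 2 * k.factorial) + ((101 : ℕ) : ℝ) ^ 2 * ((k : ℝ) + 1)) / (2 ^ 112 : ℝ)) +
    (((101 : ℕ) : ℝ) * ((31 : ℕ) : ℝ) ^ 2 + ((101 : ℕ) : ℝ) ^ 2) * (((2 ^ 32 : ℕ) : ℝ) / (2 ^ 112 : ℝ)) ≤ 1 / 10 ^ 16 := by
  simp only [Finset.sum_Ico_eq_sum_range, Finset.sum_range_succ, Finset.sum_range_zero,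
    Nat.factorial]
  norm_num

end Pool.JM.MK.m8_15_7
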